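import Pool.Agent.H770.GS.UQ

/-!
# `uq2_mixed : S_mixed` (board task 14386 for helper770)
-/

set_option autoImplicit false

open MeasureTheory Set intervalIntegral Filter Topology

namespace Pool.Agent.H663.UQ

open Pool.Agent.H770.GS

/-- the formula -/
theorem mixed_formula {r z : ℝ} {k : ℝ → ℝ} (hk : Continuous k) (v : ℝ) :
    Pool.Agent.H770.GS.cv r z (fun v => ∫ u in (v - z * r)..(v + z * r), k u) v =
      z * ∫ y in (0:ℝ)..(2 * r), W (y - r) * ∫ u in (-y)..y, k (v + z * u) := by
  have hW := W_cont
  have hg : Continuous fun y => k (v + z * y) := by fun_prop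
  have ig : ∀ a b, IntervalIntegrable (fun y => k (v + z * y)) volume a b :=
    fun a b => hg.intervalIntegrable a b
  obtain ⟨K, hK⟩ : ∃ K : ℝ → ℝ, K = fun y => ∫ s in (0:ℝ)..y, k (v + z * s) := ⟨_, rfl⟩
  have hKc : Continuous K := by
    rw [hK]
    exact intervalIntegral.continuous_primitive ig 0
  have hKd : ∀ a b, ∫ y in a..b, k (v + z * y) = K b - K a := by
    intro a b
    rw [hK]
    exact (intervalIntegral.integral_interval_sub_left (ig _ _) (ig _ _)).symm
  have hin : ∀ u, ∫ s in (v + z * u - z * r)..(v + z * u + z * r), k s =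
      z * (K (u + r) - K (u - r)) := by
    intro u
    have h1 := intervalIntegral.smul_integral_comp_add_mul (a := -r) (b := r) (fun x => k x) z (v + z * u)
    rw [smul_eq_mul] at h1
    rw [show v + z * u - z * r = v + z * u + z * -r by ring, ← h1]
    congr 1
    have h2 := intervalIntegral.integral_comp_add_left (a := -r) (b := r) (fun y => k (v + z * y)) u
    rw [← sub_eq_add_neg] at h2
    rw [hKd] at h2
    rw [← h2]
    refine intervalIntegral.integral_congr fun x _ => ?_
    show k (v + z * u + z * x) = k (v + z * (u + x))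
    congr 1
    ring
  unfold Pool.Agent.H770.GS.cv
  have e1 : ∫ u in (-r)..r, W u * ∫ s in (v + z * u - z * r)..(v + z * u + z * r), k s =
      z * ((∫ u in (-r)..r, W u * K (u + r)) - ∫ u in (-r)..r, W u * K (u - r)) := by
    rw [← intervalIntegral.integral_sub (Continuous.intervalIntegrable (by fun_prop) _ _)
      (Continuous.intervalIntegrable (by fun_prop) _ _), ← intervalIntegral.integral_const_mul]
    refine intervalIntegral.integral_congr fun u _ => ?_
    rw [hin]
    ring
  rw [e1]
  congr 1
  have e2 : ∫ u in (-r)..r, W u * K (u + r) = ∫ y in (0:ℝ)..(2 * r), W (y - r) * K y := by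
    have h := intervalIntegral.integral_comp_add_right (a := -r) (b := r) (fun y => W (y - r) * K y) r
    rw [show -r + r = 0 by ring, show r + r = 2 * r by ring] at h
    rw [← h]
    refine intervalIntegral.integral_congr fun u _ => ?_
    simp only [add_sub_cancel_right]
  have e3 : ∫ u in (-r)..r, W u * K (u - r) = ∫ y in (0:ℝ)..(2 * r), W (y - r) * K (-y) := by
    have h := intervalIntegral.integral_comp_sub_left (a := -r) (b := r)
      (fun y => W (y - r) * K (-y)) r
    rw [show r - r = 0 by ring, show r - -r = 2 * r by ring] at h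
    rw [← h]
    refine intervalIntegral.integral_congr fun u _ => ?_
    show W u * K (u - r) = W (r - u - r) * K (-(r - u))
    rw [show r - u - r = -u by ring, W_even, neg_sub]
  rw [e2, e3, ← intervalIntegral.integral_sub (Continuous.intervalIntegrable (by fun_prop) _ _)
    (Continuous.intervalIntegrable (by fun_prop) _ _)]
  refine intervalIntegral.integral_congr fun y _ => ?_
  rw [hKd]
  ring

theorem n_deriv (r y : ℝ) : HasDerivAt (fun y => W (y - r)) ((r - y) * W (y - r)) y := by
  have h := (W_deriv (y - r)).comp y ((hasDerivAt_id y).sub_const r)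
  refine h.congr_deriv ?_
  ring

theorem uq2_mixed : S_mixed := by
  intro r z k hr hr2 hz hk
  have hkc := hk.cont
  have hW := W_cont
  have hwc : Continuous fun v => ∫ u in (v - z * r)..(v + z * r), k u := by
    have h0 : ∀ a b, IntervalIntegrable k volume a b := fun a b => hkc.intervalIntegrable a b
    have h1 : Continuous fun y => ∫ s in (0:ℝ)..y, k s := intervalIntegral.continuous_primitive h0 0
    have e : (fun v => ∫ u in (v - z * r)..(v + z * r), k u) =
        fun v => (fun y => ∫ s in (0:ℝ)..y, k s) (v + z * r) - (fun y => ∫ s in (0:ℝ)..y, k s) (v - z * r) := by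
      funext v
      exact (intervalIntegral.integral_interval_sub_left (h0 _ _) (h0 _ _)).symm
    rw [e]
    fun_prop
  have hwo : ∀ x, (fun v => ∫ u in (v - z * r)..(v + z * r), k u) (-x) =
      -(fun v => ∫ u in (v - z * r)..(v + z * r), k u) x := by
    intro x
    simp only
    have h := intervalIntegral.integral_comp_neg (a := x - z * r) (b := x + z * r) (fun u => k u)
    rw [show -x - z * r = -(x + z * r) by ring, show -x + z * r = -(x - z * r) by ring, ← h,
      ← intervalIntegral.integral_neg]
    exact intervalIntegral.integral_congr fun u _ => hk.odd u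
  refine ⟨cv_cont hwc, cv_odd (g := fun v => ∫ u in (v - z * r)..(v + z * r), k u) hwo, ?_⟩
  intro v v' hv hvv _
  have hc : ∀ x, Continuous fun u => k (x + z * u) := fun x => by fun_prop
  have hsc : ∀ x, Continuous fun y => ∫ u in (-y)..y, k (x + z * u) :=
    fun x => continuous_sym (hc x)
  rw [mixed_formula hkc, mixed_formula hkc, ← sub_nonneg]
  have hsv := hsc v
  have hsv' := hsc v'
  have e : v' * (z * ∫ y in (0:ℝ)..(2 * r), W (y - r) * ∫ u in (-y)..y, k (v + z * u)) -
      v * (z * ∫ y in (0:ℝ)..(2 * r), W (y - r) * ∫ u in (-y)..y, k (v' + z * u)) =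
      z * ∫ y in (0:ℝ)..(2 * r), W (y - r) * (v' * (∫ u in (-y)..y, k (v + z * u)) -
        v * ∫ u in (-y)..y, k (v' + z * u)) := by
    have e0 : ∫ y in (0:ℝ)..(2 * r), W (y - r) * (v' * (∫ u in (-y)..y, k (v + z * u)) -
        v * ∫ u in (-y)..y, k (v' + z * u)) =
        v' * (∫ y in (0:ℝ)..(2 * r), W (y - r) * ∫ u in (-y)..y, k (v + z * u)) -
        v * ∫ y in (0:ℝ)..(2 * r), W (y - r) * ∫ u in (-y)..y, k (v' + z * u) := by
      rw [← intervalIntegral.integral_const_mul, ← intervalIntegral.integral_const_mul,
        ← intervalIntegral.integral_sub]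
      · refine intervalIntegral.integral_congr fun y _ => ?_
        ring
      all_goals exact Continuous.intervalIntegrable (by fun_prop) _ _
    rw [e0]
    ring
  rw [e]
  refine mul_nonneg hz ?_
  refine uni_main (n := fun y => W (y - r)) (n' := fun y => (r - y) * W (y - r)) (by linarith)
    (by fun_prop) (fun y _ _ => n_deriv r y) (by fun_prop)
    (fun y h1 h2 => ?_) (W_pos _).le (fun y h1 h2 => (W_pos _).le) (by fun_prop) ?_
  · have hw := W_pos (y - r)
    have h3 : y * (r - y) ≤ 1 := by nlinarith [sq_nonneg (2 * y - r)]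
    calc y * ((r - y) * W (y - r)) = (y * (r - y)) * W (y - r) := by ring
      _ ≤ 1 * W (y - r) := mul_le_mul_of_nonneg_right h3 hw.le
      _ = W (y - r) := one_mul _
  intro y hy0 _
  have h := parab2 hk hz hy0 hv hvv
  have e2 : ∫ s in (0:ℝ)..y, s * (v' * (∫ u in (-s)..s, k (v + z * u)) -
        v * ∫ u in (-s)..s, k (v' + z * u)) =
      v' * (∫ s in (0:ℝ)..y, s * ∫ u in (-s)..s, k (v + z * u)) -
        v * ∫ s in (0:ℝ)..y, s * ∫ u in (-s)..s, k (v' + z * u) := by
    rw [← intervalIntegral.integral_const_mul, ← intervalIntegral.integral_const_mul,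
      ← intervalIntegral.integral_sub]
    · refine intervalIntegral.integral_congr fun y _ => ?_
      ring
    all_goals exact Continuous.intervalIntegrable (by fun_prop) _ _
  rw [e2]
  linarith

end Pool.Agent.H663.UQ
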